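import Pool.Agent.ATZ.Stmts1
import Pool.Agent.Helper45_AT8.NRM

/-!
# Squad ATZ, row NRZ: the conjugates of an element divisible by a power of the prime
-/

open scoped BigOperators

noncomputable section

namespace Pool.Agent.PP.TB.H25

open Pool.Agent.Helper51_AWC Pool.Agent.Helper79_WRA Pool.Agent.PP Pool.Agent.PP.KF
open Pool.Agent.PP.T8.H45

attribute [local instance] Ideal.Quotient.field

theorem nrz : NrzStmt := by
  intro ℓ hℓ M _ hM a h ha ζ hζ m x hx hR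
  have hp : ℓ.Prime := hℓ.out
  set J := (Finset.range (ℓ ^ a)).filter (fun j => ¬ ℓ ∣ j) with hJ
  have hq : 0 < ℓ ^ a := pow_pos hp.pos _
  have : NeZero (ℓ ^ a) := ⟨hq.ne'⟩
  have hcop : ∀ j : ℕ, j.Coprime (ℓ ^ a) ↔ ¬ ℓ ∣ j := by
    intro j
    rw [Nat.coprime_pow_right_iff ha, Nat.coprime_comm, Nat.Prime.coprime_iff_not_dvd hp]
  have hcard : J.card = ℓ ^ (a - 1) * (ℓ - 1) := by
    rw [← Nat.totient_prime_pow hp ha, Nat.totient, hJ]
    congr 1
    refine Finset.filter_congr fun j _ => ?_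
    rw [Nat.coprime_comm, hcop]
  have hmem : ∀ j ∈ J, ¬ ℓ ∣ j := fun j hj => (Finset.mem_filter.1 hj).2
  obtain ⟨z, hz, -⟩ := prod_prim (ℓ ^ a) m (ℓ ^ a)
  have hprod : ∏ j ∈ J, (x j : ℂ) = z := by
    rw [← hz]
    refine Finset.prod_bij (fun j _ => ζ ^ j) ?_ ?_ ?_ ?_
    · intro j hj
      rw [hJ, Finset.mem_filter] at hj
      rw [mem_primitiveRoots hq]
      exact hζ.pow_of_coprime j ((hcop j).2 hj.2)
    · intro i hi j hj hij
      rw [hJ, Finset.mem_filter, Finset.mem_range] at hi hj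
      exact hζ.pow_inj hi.1 hj.1 hij
    · intro μ hμ
      rw [mem_primitiveRoots hq] at hμ
      obtain ⟨i, hi, hc, rfl⟩ := (hζ.isPrimitiveRoot_iff).1 hμ
      exact ⟨i, Finset.mem_filter.2 ⟨Finset.mem_range.2 hi, (hcop i).1 hc⟩, rfl⟩
    · intro j hj
      rw [(hx j (hmem j hj)).2]
      refine Finset.sum_congr rfl fun i _ => ?_
      rw [← pow_mul, Nat.mul_comm j i]
  have hprodR : ∏ j ∈ J, x j = (z : ℝ) := by
    have h1 : ((∏ j ∈ J, x j : ℝ) : ℂ) = ((z : ℝ) : ℂ) := by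
      rw [Complex.ofReal_prod, hprod]
      simp
    exact Complex.ofReal_injective h1
  have hpos : (0 : ℝ) < z := by
    rw [← hprodR]
    exact Finset.prod_pos fun j hj => (hx j (hmem j hj)).1
  have hl0 : (ℓ : ℂ) ≠ 0 := by exact_mod_cast hp.ne_zero
  have hdvd : (ℓ : ℤ) ^ (h * J.card) ∣ z := by
    apply dvd_RM hp M hM
    have h1 : ∏ j ∈ J, ((x j : ℂ) / ℓ ^ h) ∈ RM M := by
      refine Subring.prod_mem _ fun j hj => hR j (hmem j hj)
    have h2 : ∏ j ∈ J, ((x j : ℂ) / ℓ ^ h) = (z : ℂ) / (ℓ : ℂ) ^ (h * J.card) := by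
      rw [Finset.prod_div_distrib, hprod, Finset.prod_const, ← pow_mul]
    rwa [h2] at h1
  have hmain : ((ℓ : ℝ) ^ h) ^ J.card ≤ ∏ j ∈ J, x j := by
    rw [hprodR, ← pow_mul]
    have hz0 : 0 < z := by exact_mod_cast hpos
    have h1 := Int.le_of_dvd hz0 hdvd
    exact_mod_cast h1
  have hfin := amgm J x (fun j hj => (hx j (hmem j hj)).1) ((ℓ : ℝ) ^ h)
    (pow_pos (by exact_mod_cast hp.pos) _) hmain
  rw [hcard] at hfin
  push_cast at hfin ⊢
  exact hfin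

end Pool.Agent.PP.TB.H25
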